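import Pool.Agent.MP_2fc7fa_gt.Sm
import Pool.Agent.MP_630a92_gt.Defs

section

/-! Hadamard's lemma and Whitney's theorem on even functions, jointly smooth in parameters. -/

namespace Pool.Agent.MP_630a92_gt

open Set Filter Topology ContinuousLinearMap
open scoped ContDiff
open Pool.Agent.MP_2fc7fa_gt

variable {W : Type} [NormedAddCommGroup W] [NormedSpace ℝ W]

theorem hadamard {E : Type} [NormedAddCommGroup E] [NormedSpace ℝ E] [CompleteSpace E]
    {F : ℝ × W → E} (hF : ContDiff ℝ ∞ F) (ho : ∀ s w, F (-s, w) = -F (s, w)) :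
    ∃ H : ℝ × W → E, ContDiff ℝ ∞ H ∧ (∀ s w, F (s, w) = s • H (s, w)) ∧
      ∀ s w, H (-s, w) = H (s, w) := by
  have h1 : ContDiff ℝ ∞ fun p => fderiv ℝ F p (1, 0) :=
    (contDiff_infty_iff_fderiv.1 hF).2.clm_apply contDiff_const
  have h2 : ContDiff ℝ ∞ fun p : ℝ × W => ∫ t in (0 : ℝ)..1, fderiv ℝ F (t • p.1, p.2) (1, 0) :=
    contDiffOn_univ.1 (Sm.contDiffOn (P := Unit) (fun n => Fam.integral convex_univ
      ((((sm_const continuous_snd).smul (sm_of_contDiff contDiff_fst)).prod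
        (sm_of_contDiff contDiff_snd)).post' h1 n)) uniqueDiffOn_univ ())
  have h3 : ∀ s w, F (s, w) = s • ∫ t in (0 : ℝ)..1, fderiv ℝ F (t • s, w) (1, 0) := by
    intro s w
    have h0 : F (0, w) = 0 := by
      have := ho 0 w
      rw [neg_zero, eq_neg_iff_add_eq_zero, ← two_smul ℝ, smul_eq_zero] at this
      exact this.resolve_left two_ne_zero
    have c : Continuous fun t : ℝ => fderiv ℝ F (t • s, w) (1, 0) :=
      h1.continuous.comp (by fun_prop)
    have h4 := intervalIntegral.integral_eq_sub_of_hasDerivAt (f := fun t : ℝ => F (t • s, w))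
      (f' := fun t => s • fderiv ℝ F (t • s, w) (1, 0)) (a := 0) (b := 1) (fun t _ => by
        have := (hF.differentiable (by simp) (t • s, w)).hasFDerivAt.comp_hasDerivAt t
          (((hasDerivAt_id' t).smul_const s).prodMk (hasDerivAt_const t w))
        rw [← map_smul]
        simpa [Function.comp_def] using this) ((c.const_smul s).intervalIntegrable _ _)
    rw [intervalIntegral.integral_smul] at h4
    rw [h4]
    simp [h0]
  refine ⟨_, h2, h3, fun s w => ?_⟩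
  rcases eq_or_ne s 0 with rfl | hs
  · rw [neg_zero]
  · have h5 := ho s w
    rw [h3, h3 s, neg_smul, neg_inj] at h5
    exact smul_right_injective E hs h5

theorem whitney_nat (n : ℕ) : ∀ {E : Type} [NormedAddCommGroup E] [NormedSpace ℝ E]
    [CompleteSpace E] {F : ℝ × W → E}, ContDiff ℝ ∞ F → (∀ s w, F (-s, w) = F (s, w)) →
    ContDiffOn ℝ n (fun p : ℝ × W => F (√p.1, p.2)) (Ici 0 ×ˢ univ) := by
  induction n with
  | zero =>
    intro E _ _ _ F hF _
    exact contDiffOn_zero.2 (hF.continuous.comp (by fun_prop)).continuousOn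
  | succ n ih =>
    intro E _ _ _ F hF he
    have h1 : ContDiff ℝ ∞ (fderiv ℝ F) := (contDiff_infty_iff_fderiv.1 hF).2
    have hd := hF.differentiable (by simp)
    have hs : ∀ s w a b, fderiv ℝ F (-s, w) (-a, b) = fderiv ℝ F (s, w) (a, b) := by
      intro s w a b
      have h2 := (hd (-s, w)).hasFDerivAt.comp (s, w)
        (((-fst ℝ ℝ W).prod (snd ℝ ℝ W)).hasFDerivAt (x := (s, w)))
      have h3 : F ∘ ((-fst ℝ ℝ W).prod (snd ℝ ℝ W)) = F := funext fun p => he p.1 p.2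
      rw [h3] at h2
      rw [h2.fderiv]
      rfl
    obtain ⟨H, hH, h2, h3⟩ := hadamard (h1.clm_apply (contDiff_const (c := ((1 : ℝ), (0 : W)))))
      fun s w => by rw [← hs s w 1 0, ← map_neg]; simp
    let D : ℝ × W → ℝ × W →L[ℝ] E := fun p => (fderiv ℝ F p).comp ((inr ℝ ℝ W).comp (snd ℝ ℝ W)) +
      (fst ℝ ℝ W).smulRight ((1 / 2 : ℝ) • H p)
    have hD : ContDiff ℝ ∞ D := (h1.clm_comp contDiff_const).add
      (contDiff_const.smulRight (hH.const_smul _))
    have h4 : ∀ p ∈ Ioi (0 : ℝ) ×ˢ (univ : Set W),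
        HasFDerivAt (fun p : ℝ × W => F (√p.1, p.2)) (D (√p.1, p.2)) p := by
      intro p hp
      have h5 : √p.1 ≠ 0 := (Real.sqrt_pos.2 hp.1).ne'
      refine ((hd (√p.1, p.2)).hasFDerivAt.comp p (((hasFDerivAt_fst (𝕜 := ℝ) (p := p)).sqrt
        hp.1.ne').prodMk hasFDerivAt_snd)).congr_fderiv (ContinuousLinearMap.ext fun v => .symm ?_)
      have h6 : (((1 / (2 * √p.1)) * v.1, v.2) : ℝ × W) =
          (0, v.2) + ((1 / (2 * √p.1)) * v.1) • ((1 : ℝ), (0 : W)) := by simp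
      change fderiv ℝ F (√p.1, p.2) (0, v.2) + v.1 • (1 / 2 : ℝ) • H (√p.1, p.2) =
        fderiv ℝ F (√p.1, p.2) ((1 / (2 * √p.1)) * v.1, v.2)
      rw [h6, map_add, map_smul, h2, smul_smul, smul_smul]
      congr 2
      field_simp
    have hc : closure (Ioi (0 : ℝ) ×ˢ (univ : Set W)) = Ici 0 ×ˢ univ := by
      rw [closure_prod_eq, closure_Ioi, closure_univ]
    refine (contDiffOn_succ_iff_hasFDerivWithinAt_of_uniqueDiffOn
      ((uniqueDiffOn_Ici 0).prod uniqueDiffOn_univ)).2 ⟨by simp, _, ih hD fun s w => ?_,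
        fun p _ => ?_⟩
    · refine ContinuousLinearMap.ext fun v => ?_
      change fderiv ℝ F (-s, w) (0, v.2) + v.1 • (1 / 2 : ℝ) • H (-s, w) =
        fderiv ℝ F (s, w) (0, v.2) + v.1 • (1 / 2 : ℝ) • H (s, w)
      rw [h3, ← hs s w 0, neg_zero]
    · rw [← hc]
      refine hasFDerivWithinAt_closure_of_tendsto_fderiv
        (fun y hy => (h4 y hy).differentiableAt.differentiableWithinAt)
        ((convex_Ioi 0).prod convex_univ) (isOpen_Ioi.prod isOpen_univ)
        (fun y _ => (hF.continuous.comp (by fun_prop)).continuousWithinAt) ?_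
      refine Tendsto.congr' ?_ ((hD.continuous.comp
        (f := fun p : ℝ × W => (√p.1, p.2)) (by fun_prop)).continuousWithinAt)
      filter_upwards [self_mem_nhdsWithin] with y hy using (h4 y hy).fderiv.symm

theorem whitney {E : Type} [NormedAddCommGroup E] [NormedSpace ℝ E] [CompleteSpace E]
    {F : ℝ × W → E} (hF : ContDiff ℝ ∞ F) (he : ∀ s w, F (-s, w) = F (s, w)) :
    ContDiffOn ℝ ∞ (fun p : ℝ × W => F (√p.1, p.2)) (Ici 0 ×ˢ univ) :=
  contDiffOn_infty.2 fun n => whitney_nat n hF he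

end Pool.Agent.MP_630a92_gt

end

section

/-! The shift operator on circle-equivariant maps of `ℂ × W`. -/

namespace Pool.Agent.MP_630a92_gt

open Set Filter Topology Complex Function
open scoped ContDiff

variable {W : Type} [NormedAddCommGroup W] [NormedSpace ℝ W] {g h : ℂ × W → ℂ × W} {t : ℝ}

/-- Equivariance under rotations of the first factor. -/
def Eqv (g : ℂ × W → ℂ × W) : Prop :=
  ∀ c : ℂ, ‖c‖ = 1 → ∀ a w, g (c * a, w) = (c * (g (a, w)).1, (g (a, w)).2)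

/-- Preservation of the modulus of the first coordinate. -/
def Nrm (g : ℂ × W → ℂ × W) : Prop := ∀ z, ‖(g z).1‖ = ‖z.1‖

/-- The shifted radius. -/
noncomputable def rho (t : ℝ) (a : ℂ) : ℝ := √(normSq a + t)

/-- The shift operator. -/
noncomputable def sh (g : ℂ × W → ℂ × W) (t : ℝ) (z : ℂ × W) : ℂ × W :=
  ((g (rho t z.1, z.2)).1 / rho t z.1 * z.1, (g (rho t z.1, z.2)).2)

theorem norm_le_rho (ht : 0 ≤ t) (a : ℂ) : ‖a‖ ≤ rho t a :=
  Real.le_sqrt_of_sq_le (by rw [normSq_eq_norm_sq]; linarith)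

theorem rho_zero (ht : 0 ≤ t) {a : ℂ} (h : (rho t a : ℂ) = 0) : a = 0 :=
  norm_le_zero_iff.1 ((norm_le_rho ht a).trans (ofReal_eq_zero.1 h).le)

theorem norm_rho (t : ℝ) (a : ℂ) : ‖(rho t a : ℂ)‖ = rho t a := by
  rw [norm_real]
  exact Real.norm_of_nonneg (Real.sqrt_nonneg _)

theorem rho_congr {a b : ℂ} (h : ‖a‖ = ‖b‖) : rho t a = rho t b := by
  simp [rho, normSq_eq_norm_sq, h]

omit [NormedAddCommGroup W] [NormedSpace ℝ W] in
theorem unit_sh (hn : Nrm g) {a : ℂ} (h0 : (rho t a : ℂ) ≠ 0) (w : W) :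
    ‖(g (rho t a, w)).1 / rho t a‖ = 1 := by
  rw [norm_div, hn, div_self (norm_ne_zero_iff.2 h0)]

omit [NormedAddCommGroup W] [NormedSpace ℝ W] in
theorem sh_nrm (hn : Nrm g) (ht : 0 ≤ t) : Nrm (sh g t) := fun z => by
  rcases eq_or_ne (rho t z.1 : ℂ) 0 with h0 | h0
  · simp [sh, rho_zero ht h0]
  · simp only [sh, norm_mul, unit_sh hn h0, one_mul]

omit [NormedAddCommGroup W] [NormedSpace ℝ W] in
theorem sh_eqv (g : ℂ × W → ℂ × W) (t : ℝ) : Eqv (sh g t) := fun c hc a w => by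
  have : rho t (c * a) = rho t a := rho_congr (by simp [hc])
  simp only [sh, this, mul_left_comm c]

omit [NormedAddCommGroup W] [NormedSpace ℝ W] in
theorem sh_zero (he : Eqv g) (hn : Nrm g) : sh g 0 = g := by
  funext ⟨a, w⟩
  have h1 : rho 0 a = ‖a‖ := by simp [rho, normSq_eq_norm_sq]
  rcases eq_or_ne a 0 with rfl | h0
  · have := hn (0, w)
    simp only [norm_zero, norm_eq_zero] at this
    simp [sh, h1, Prod.ext_iff, this]
  · have h2 : (‖a‖ : ℂ) ≠ 0 := by simpa using h0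
    have := he (a / ‖a‖) (by simp [h0]) ‖a‖ w
    rw [div_mul_cancel₀ _ h2] at this
    rw [this, sh, h1]
    congr 1
    ring

omit [NormedAddCommGroup W] [NormedSpace ℝ W] in
theorem sh_id (ht : 0 ≤ t) {z : ℂ × W} (h : g (rho t z.1, z.2) = (↑(rho t z.1), z.2)) :
    sh g t z = z := by
  rcases eq_or_ne (rho t z.1 : ℂ) 0 with h0 | h0
  · rw [sh, h]
    simp [Prod.ext_iff, rho_zero ht h0]
  · simp [sh, h, h0]

omit [NormedAddCommGroup W] [NormedSpace ℝ W] in
theorem sh_inv (ht : 0 ≤ t) (hi : LeftInverse h g) (he : Eqv h) (hn : Nrm g) :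
    LeftInverse (sh h t) (sh g t) := by
  rintro ⟨a, w⟩
  have h1 : rho t (sh g t (a, w)).1 = rho t a := rho_congr (sh_nrm hn ht _)
  rw [sh, h1]
  have h2 := hi (rho t a, w)
  rcases eq_or_ne (rho t a : ℂ) 0 with h0 | h0
  · have h3 := hn (rho t a, w)
    simp only [h0, norm_zero, norm_eq_zero] at h3 h2
    rw [show g (0, w) = (0, (g (0, w)).2) from Prod.ext h3 rfl] at h2
    simp only [sh, h0, h2]
    simp [rho_zero ht h0]
  · have h3 := he _ (unit_sh hn h0 w) (rho t a) (g (rho t a, w)).2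
    rw [div_mul_cancel₀ _ h0, h2, Prod.ext_iff] at h3
    refine Prod.ext ?_ h3.2.symm
    have h4 := h3.1
    simp only [sh] at h4 ⊢
    field_simp at h4 ⊢
    linear_combination (-a) * h4

theorem sh_smooth [CompleteSpace W] {P Q : Type} [NormedAddCommGroup P] [NormedSpace ℝ P]
    [NormedAddCommGroup Q] [NormedSpace ℝ Q] {f : P → ℂ × W → ℂ × W}
    (hf : ContDiff ℝ ∞ fun q : P × ℂ × W => f q.1 q.2) (he : ∀ p, Eqv (f p)) {τ : Q → ℝ}
    (hτ : ContDiff ℝ ∞ τ) (h0 : ∀ q, 0 ≤ τ q) {x : Q → P} (hx : ContDiff ℝ ∞ x) {y : Q → ℂ × W}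
    (hy : ContDiff ℝ ∞ y) : ContDiff ℝ ∞ fun q => sh (f (x q)) (τ q) (y q) := by
  have h1 : ContDiff ℝ ∞ fun q : ℝ × P × W => f q.2.1 (q.1, q.2.2) :=
    hf.comp (f := fun q : ℝ × P × W => (q.2.1, (q.1 : ℂ), q.2.2))
      (contDiff_snd.fst.prodMk ((ofRealCLM.contDiff.comp contDiff_fst).prodMk contDiff_snd.snd))
  have h2 : ∀ (s : ℝ) p w, f p (((-s : ℝ) : ℂ), w) = (-(f p (s, w)).1, (f p (s, w)).2) :=
    fun s p w => by simpa using he p (-1) (by simp) s w
  obtain ⟨H, hH, h3, h4⟩ := hadamard h1.fst fun s w => by simp only [h2]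
  have h5 := (whitney (hH.prodMk h1.snd) fun s w => by simp only [h2, h4]).comp_contDiff
    (f := fun q => (normSq (y q).1 + τ q, x q, (y q).2))
    ((ContDiff.add (by simp only [normSq_eq_norm_sq]; exact hy.fst.norm_sq ℂ) hτ).prodMk
      (hx.prodMk hy.snd)) fun q => ⟨add_nonneg (normSq_nonneg _) (h0 q), trivial⟩
  convert (h5.fst.mul hy.fst).prodMk h5.snd using 2 with q
  refine Prod.ext ?_ rfl
  change (f (x q) (rho (τ q) (y q).1, (y q).2)).1 / rho (τ q) (y q).1 * (y q).1 =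
    H (rho (τ q) (y q).1, x q, (y q).2) * (y q).1
  rcases eq_or_ne (rho (τ q) (y q).1 : ℂ) 0 with e | e
  · simp [rho_zero (h0 q) e]
  · rw [h3 (rho (τ q) (y q).1) (x q, (y q).2), real_smul, mul_div_cancel_left₀ _ e]

end Pool.Agent.MP_630a92_gt

end

section

/-! The shift operator preserves symplectomorphisms. -/

namespace Pool.Agent.MP_630a92_gt

open Set Filter Topology Complex Function
open scoped ContDiff

variable {W : Type} [NormedAddCommGroup W] [NormedSpace ℝ W] {g : ℂ × W → ℂ × W} {t : ℝ}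
  {B : W → W → ℝ}

/-- The area form of `ℂ` plus a form on `W`. -/
def om (B : W → W → ℝ) (u v : ℂ × W) : ℝ := u.1.re * v.1.im - u.1.im * v.1.re + B u.2 v.2

/-- The derivative of `g` at `z` preserves `om B`. -/
def SyAt (B : W → W → ℝ) (g : ℂ × W → ℂ × W) (z : ℂ × W) : Prop :=
  ∀ u v, om B (fderiv ℝ g z u) (fderiv ℝ g z v) = om B u v

theorem hasFDerivAt_normSq {E : Type} [NormedAddCommGroup E] [NormedSpace ℝ E] {f : E → ℂ}
    {f' : E →L[ℝ] ℂ} {x : E} (h : HasFDerivAt f f' x) : ∃ L : E →L[ℝ] ℝ,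
    HasFDerivAt (fun y => normSq (f y)) L x ∧
      ∀ v, L v = 2 * ((f x).re * (f' v).re + (f x).im * (f' v).im) := by
  have h1 := reCLM.hasFDerivAt.comp x h
  have h2 := imCLM.hasFDerivAt.comp x h
  refine ⟨_, (h1.mul h1).add (h2.mul h2), fun v => ?_⟩
  simp
  ring

theorem nrm_of (hB : ∀ v, B 0 v = 0) (hg : Differentiable ℝ g) (he : Eqv g) (hs : ∀ z, SyAt B g z)
    {z₀ : ℂ × W} (h0 : g z₀ = z₀) : Nrm g := by
  have h1 : ∀ z : ℂ × W, fderiv ℝ g z (I * z.1, 0) = (I * (g z).1, 0) := by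
    rintro ⟨a, w⟩
    have e : ∀ b : ℂ, HasDerivAt (fun θ : ℝ => exp (θ * I) * b) (I * b) 0 := fun b => by
      simpa using (((hasDerivAt_id (0 : ℝ)).ofReal_comp.mul_const I).cexp).mul_const b
    have h2 := (hg _).hasFDerivAt.comp_hasDerivAt (0 : ℝ) ((e a).prodMk (hasDerivAt_const _ w))
    have h3 := (e (g (a, w)).1).prodMk (hasDerivAt_const (0 : ℝ) (g (a, w)).2)
    simp only [comp_def, he _ (norm_exp_ofReal_mul_I _)] at h2
    simpa using h2.unique h3
  have h2 : ∀ z, HasFDerivAt (fun z => normSq (g z).1 - normSq z.1) (0 : ℂ × W →L[ℝ] ℝ) z := by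
    intro z
    obtain ⟨L, h3, h4⟩ := hasFDerivAt_normSq (hg z).hasFDerivAt.fst
    obtain ⟨M, h5, h6⟩ := hasFDerivAt_normSq (hasFDerivAt_fst (𝕜 := ℝ) (p := z))
    refine (h3.sub h5).congr_fderiv (ContinuousLinearMap.ext fun v => ?_)
    have h7 := hs z (I * z.1, 0) v
    rw [h1] at h7
    simp [om, hB] at h7
    simp [h4, h6]
    linarith
  intro z
  have h3 := is_const_of_fderiv_eq_zero (fun z => (h2 z).differentiableAt)
    (fun z => (h2 z).fderiv) z z₀
  rw [h0, sub_self, sub_eq_zero, normSq_eq_norm_sq, normSq_eq_norm_sq] at h3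
  exact (pow_left_inj₀ (norm_nonneg _) (norm_nonneg _) two_ne_zero).1 h3

/-- The radial stretch. -/
noncomputable def jm (t : ℝ) (z : ℂ × W) : ℂ × W := (√(1 + t / normSq z.1) • z.1, z.2)

theorem jm_symp (ht : 0 ≤ t) {z : ℂ × W} (hz : z.1 ≠ 0) :
    DifferentiableAt ℝ (jm t) z ∧ SyAt B (jm t) z := by
  obtain ⟨L, h1, h2⟩ := hasFDerivAt_normSq (hasFDerivAt_fst (𝕜 := ℝ) (p := z))
  have hu := normSq_pos.2 hz
  have h3 : DifferentiableAt ℝ (fun y : ℂ × W => √(1 + t / normSq y.1)) z :=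
    (((h1.differentiableAt.inv hu.ne').const_mul t).const_add 1).sqrt
      (show 1 + t * (normSq z.1)⁻¹ ≠ 0 by positivity)
  have h4 := (h3.hasFDerivAt.smul (hasFDerivAt_fst (𝕜 := ℝ) (p := z))).prodMk hasFDerivAt_snd
  have h5 := (((h3.hasFDerivAt.mul h3.hasFDerivAt).mul h1).sub h1).unique
    ((hasFDerivAt_const t z).congr_of_eventuallyEq (by
      filter_upwards [continuous_fst.continuousAt.eventually_ne hz] with y hy
      have := normSq_pos.2 hy
      simp only [Pi.mul_apply, Pi.sub_apply]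
      rw [Real.mul_self_sqrt (by positivity)]
      field_simp
      ring))
  refine ⟨h4.differentiableAt, fun u v => ?_⟩
  have h6 := congr($h5 u)
  have h7 := congr($h5 v)
  rw [show fderiv ℝ (jm t) z = _ from h4.fderiv]
  generalize fderiv ℝ (fun y : ℂ × W => √(1 + t / normSq y.1)) z = M at *
  simp [om, h2] at h6 h7 ⊢
  generalize √(1 + t / normSq z.1) = k at *
  rw [normSq_apply] at *
  refine mul_left_cancel₀ hu.ne' ?_
  linear_combination (u.1.re * z.1.im - u.1.im * z.1.re) / 2 * h7 +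
    (z.1.re * v.1.im - z.1.im * v.1.re) / 2 * h6

omit [NormedAddCommGroup W] [NormedSpace ℝ W] in
theorem jm_sh (ht : 0 ≤ t) (he : Eqv g) (hn : Nrm g) {z : ℂ × W} (hz : z.1 ≠ 0) :
    jm t (sh g t z) = g (jm t z) := by
  have hu := normSq_pos.2 hz
  have h0 : (rho t z.1 : ℂ) ≠ 0 := fun e => hz (rho_zero ht e)
  have h1 : ‖√(1 + t / normSq z.1) • z.1‖ = rho t z.1 := by
    rw [norm_smul, Real.norm_of_nonneg (Real.sqrt_nonneg _), norm_def, rho,
      ← Real.sqrt_mul (by positivity)]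
    congr 1
    field_simp
  have h2 := he (√(1 + t / normSq z.1) • z.1 / rho t z.1)
    (by rw [norm_div, h1, norm_rho, div_self (by simpa using h0)]) (rho t z.1) z.2
  rw [div_mul_cancel₀ _ h0] at h2
  rw [jm, jm, h2, normSq_eq_norm_sq (sh g t z).1, sh_nrm hn ht, ← normSq_eq_norm_sq]
  refine Prod.ext ?_ rfl
  simp only [sh, real_smul]
  ring

theorem sh_symp (hB : Continuous (uncurry B)) (ht : 0 ≤ t) (he : Eqv g) (hn : Nrm g)
    (hg : Differentiable ℝ g) (hs : ∀ z, SyAt B g z) (hh : ContDiff ℝ ∞ (sh g t)) (z : ℂ × W) :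
    SyAt B (sh g t) z := by
  intro u v
  have hc := hh.continuous_fderiv (by simp)
  have hd : Dense {z : ℂ × W | z.1 ≠ 0} :=
    (dense_compl_singleton (0 : ℂ)).preimage isOpenMap_fst
  refine congrFun (Continuous.ext_on hd (f := fun z => om B (fderiv ℝ (sh g t) z u)
    (fderiv ℝ (sh g t) z v)) (g := fun _ => om B u v) ?_ continuous_const fun z hz => ?_) z
  · have c1 := hc.clm_apply (continuous_const (y := u))
    have c2 := hc.clm_apply (continuous_const (y := v))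
    exact .add (by fun_prop) (hB.comp (c1.snd.prodMk c2.snd))
  · have h1 : (sh g t z).1 ≠ 0 := by rwa [← norm_ne_zero_iff, sh_nrm hn ht, norm_ne_zero_iff]
    have h2 := jm_symp (B := B) ht h1
    have h3 := jm_symp (B := B) ht hz
    have h4 := (h2.1.hasFDerivAt.comp z (hh.differentiable (by simp) z).hasFDerivAt).unique
      (((hg _).hasFDerivAt.comp z h3.1.hasFDerivAt).congr_of_eventuallyEq (by
        filter_upwards [continuous_fst.continuousAt.eventually_ne hz] with y hy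
        exact jm_sh ht he hn hy))
    have h5 := congr($h4 u)
    have h6 := congr($h4 v)
    simp only [ContinuousLinearMap.comp_apply] at h5 h6
    simp only
    rw [← h2.2, h5, h6, hs, h3.2]

end Pool.Agent.MP_630a92_gt

end

section

/-! Contracting families of circle-equivariant compactly supported symplectomorphisms. -/

namespace Pool.Agent.MP_630a92_gt

open Set Filter Topology Complex Function
open scoped ContDiff

section
variable {E F G : Type} [NormedAddCommGroup E] [NormedSpace ℝ E] [NormedAddCommGroup F]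
  [NormedSpace ℝ F] [NormedAddCommGroup G] [NormedSpace ℝ G] {a : E → E → ℝ} {b : F → F → ℝ}
  {c : G → G → ℝ}

/-- Diffeomorphisms pulling one form back to another. -/
def Sy (a : E → E → ℝ) (b : F → F → ℝ) (f : E → F) : Prop :=
  ContDiff ℝ ∞ f ∧ (∃ ψ, ContDiff ℝ ∞ ψ ∧ LeftInverse ψ f ∧ RightInverse ψ f) ∧
    ∀ z u v, b (fderiv ℝ f z u) (fderiv ℝ f z v) = a u v

theorem Sy.comp {f : E → F} {g : F → G} (hg : Sy b c g) (hf : Sy a b f) : Sy a c (g ∘ f) := by
  obtain ⟨f1, ⟨ψ, f2, f3, f4⟩, f5⟩ := hf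
  obtain ⟨g1, ⟨χ, g2, g3, g4⟩, g5⟩ := hg
  refine ⟨g1.comp f1, ⟨ψ ∘ χ, f2.comp g2, g3.comp f3, g4.comp f4⟩, fun z u v => ?_⟩
  rw [fderiv_comp z (g1.differentiable (by simp) _) (f1.differentiable (by simp) _)]
  exact (g5 _ _ _).trans (f5 _ _ _)

theorem Sy.inv {f : E → F} (hf : Sy a b f) :
    ∃ ψ, Sy b a ψ ∧ LeftInverse ψ f ∧ RightInverse ψ f := by
  obtain ⟨f1, ⟨ψ, f2, f3, f4⟩, f5⟩ := hf
  refine ⟨ψ, ⟨f2, ⟨f, f1, f4, f3⟩, fun z u v => ?_⟩, f3, f4⟩
  have h := fderiv_comp z (f1.differentiable (by simp) (ψ z)) (f2.differentiable (by simp) z)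
  rw [f4.comp_eq_id, fderiv_id] at h
  rw [← f5 (ψ z)]
  exact congrArg₂ b congr($h.symm u) congr($h.symm v)

end

theorem core {W P : Type} [NormedAddCommGroup W] [NormedSpace ℝ W] [CompleteSpace W]
    [NormedAddCommGroup P] [NormedSpace ℝ P] {B : W → W → ℝ} (hB : ∀ v, B 0 v = 0)
    (hB' : Continuous (uncurry B)) {f : P → ℂ × W → ℂ × W}
    (hf : ContDiff ℝ ∞ fun q : P × ℂ × W => f q.1 q.2) (h1 : ∀ p, Sy (om B) (om B) (f p))
    (h2 : ∀ p, Eqv (f p)) {R : ℝ} (hR : 0 ≤ R) (h3 : ∀ p z, R < ‖z‖ → f p z = z) :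
    ∃ Φ : ℝ → P → ℂ × W → ℂ × W, (ContDiff ℝ ∞ fun q : ℝ × P × ℂ × W => Φ q.1 q.2.1 q.2.2) ∧
      (∀ p, Φ 0 p = id) ∧ Φ 1 = f ∧ (∀ t p, Sy (om B) (om B) (Φ t p) ∧ Eqv (Φ t p)) ∧
      (∀ t p, f p = id → Φ t p = id) ∧ ∀ t p z, R < ‖z‖ → Φ t p z = z := by
  have hn : ∀ p, Nrm (f p) := fun p => nrm_of hB ((h1 p).1.differentiable (by simp)) (h2 p)
    (h1 p).2.2 (h3 p (((R + 1 : ℝ) : ℂ), 0) (by
      rw [Prod.norm_def, norm_real, Real.norm_of_nonneg (by linarith)]
      exact lt_max_of_lt_left (by linarith)))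
  have h0 : ∀ t : ℝ, 0 ≤ ((R + 1) * (1 - t)) ^ 2 := fun t => sq_nonneg _
  have hs : ∀ {g : ℂ × W → ℂ × W}, ContDiff ℝ ∞ g → Eqv g → ∀ {s}, 0 ≤ s →
      ContDiff ℝ ∞ (sh g s) := fun hg he _ hs =>
    sh_smooth (P := ℝ) (f := fun _ => _) (hg.comp contDiff_snd) (fun _ => he) contDiff_const
      (fun _ => hs) (contDiff_const (c := 0)) contDiff_id
  refine ⟨fun t p => sh (f p) (((R + 1) * (1 - t)) ^ 2),
    sh_smooth hf h2 (τ := fun q : ℝ × P × ℂ × W => ((R + 1) * (1 - q.1)) ^ 2) (by fun_prop)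
      (fun q => h0 q.1) contDiff_snd.fst contDiff_snd.snd,
    fun p => funext fun z => sh_id (h0 0) (h3 _ _ ?_),
    funext fun p => by simpa using sh_zero (h2 p) (hn p), fun t p => ⟨?_, sh_eqv _ _⟩,
    fun t p e => funext fun z => sh_id (h0 t) (by rw [e]; rfl),
    fun t p z hz => sh_id (h0 t) (h3 _ _ (hz.trans_le ?_))⟩
  · rw [Prod.norm_def, norm_rho]
    exact lt_max_of_lt_left (Real.lt_sqrt_of_sq_lt (by nlinarith [normSq_nonneg z.1]))
  · obtain ⟨f1, ⟨ψ, f2, f3, f4⟩, f5⟩ := h1 p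
    have e1 : Eqv ψ := fun c hc a w => by
      rw [← f3 (c * (ψ (a, w)).1, (ψ (a, w)).2), h2 p c hc, f4]
    have e2 : Nrm ψ := fun z => by rw [← hn p, f4]
    exact ⟨hs f1 (h2 p) (h0 t), ⟨_, hs f2 e1 (h0 t), sh_inv (h0 t) f3 e1 (hn p),
      sh_inv (h0 t) f4 (h2 p) e2⟩, sh_symp hB' (h0 t) (h2 p) (hn p) (f1.differentiable (by simp))
        f5 (hs f1 (h2 p) (h0 t))⟩
  · rw [Prod.norm_def, Prod.norm_def, norm_rho]
    exact max_le_max (norm_le_rho (h0 t) _) le_rfl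

/-- Splitting off the `j`-th coordinate. -/
noncomputable def spl {n : ℕ} (j : Fin n) : (Fin n → ℂ) ≃L[ℝ] ℂ × ({k // k ≠ j} → ℂ) :=
  LinearEquiv.toContinuousLinearEquiv
    { Equiv.piSplitAt j fun _ => ℂ with
      map_add' := fun _ _ => rfl
      map_smul' := fun _ _ => rfl }

theorem main {n : ℕ} (j : Fin n) {χ : (Fin n → ℂ) → Fin n → ℂ} (hχ : IsSymp χ) {P : Type}
    [NormedAddCommGroup P] [NormedSpace ℝ P] {φ : P → (Fin n → ℂ) → Fin n → ℂ}
    (hφ : ContDiff ℝ ∞ fun q : P × (Fin n → ℂ) => φ q.1 q.2)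
    (h1 : ∀ p, IsSymp (φ p) ∧ Commutes χ j (φ p)) {K : Set (Fin n → ℂ)} (hK : IsCompact K)
    (h2 : ∀ p, ∀ z ∉ K, φ p z = z) : ∃ Φ : ℝ → P → (Fin n → ℂ) → Fin n → ℂ,
      (ContDiff ℝ ∞ fun q : ℝ × P × (Fin n → ℂ) => Φ q.1 q.2.1 q.2.2) ∧
      (∀ p, Φ 0 p = id) ∧ Φ 1 = φ ∧ (∀ t p, IsSymp (Φ t p) ∧ Commutes χ j (Φ t p)) ∧
      (∀ t p, φ p = id → Φ t p = id) ∧
      ∃ K', IsCompact K' ∧ ∀ t p, ∀ z ∉ K', Φ t p z = z := by
  let B : ({k // k ≠ j} → ℂ) → ({k // k ≠ j} → ℂ) → ℝ := fun u v =>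
    ∑ k, ((u k).re * (v k).im - (u k).im * (v k).re)
  have hL : Sy omega0 (om B) (spl j) := ⟨(spl j).contDiff, ⟨_, (spl j).symm.contDiff,
    (spl j).symm_apply_apply, (spl j).apply_symm_apply⟩, fun z u v => by
      rw [ContinuousLinearEquiv.fderiv, omega0, Fintype.sum_eq_add_sum_subtype_ne _ j]
      rfl⟩
  have hr : ∀ θ x, spl j (rot j θ x) = (exp (θ * I) * (spl j x).1, (spl j x).2) := fun θ x =>
    Prod.ext (update_self _ _ _) (funext fun k => update_of_ne k.2 _ _)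
  have hX := hL.comp (show Sy omega0 omega0 χ from hχ)
  obtain ⟨Y, hY, i1, i2⟩ := hX.inv
  have hc : ∀ g, Commutes χ j g ↔ Eqv ((spl j ∘ χ) ∘ g ∘ Y) := fun g => by
    refine ⟨fun h c hc a w => ?_, fun h θ z w e => (spl j).injective ?_⟩
    · obtain ⟨θ, rfl⟩ := (norm_eq_one_iff c).1 hc
      refine (congrArg (spl j) (h θ (Y (a, w)) _ ((spl j).injective ?_))).trans (hr _ _)
      rw [hr]
      exact (i2 _).trans (by rw [show spl j (χ (Y (a, w))) = (a, w) from i2 _])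
    · have := h _ (norm_exp_ofReal_mul_I θ) (spl j (χ z)).1 (spl j (χ z)).2
      rw [← hr, ← e] at this
      simpa only [comp_apply, show ∀ x, Y (spl j (χ x)) = x from i1, ← hr] using this
  obtain ⟨R, hR, h3⟩ := (hK.image hX.1.continuous).isBounded.subset_closedBall_lt 0 0
  obtain ⟨Φ, c1, c2, c3, c4, c5, c6⟩ := core (B := B) (fun v => by simp [B]) (by fun_prop)
    (f := fun p => (spl j ∘ χ) ∘ φ p ∘ Y) (hX.1.comp (hφ.comp
      (contDiff_fst.prodMk (hY.1.comp contDiff_snd))))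
    (fun p => hX.comp ((show Sy omega0 omega0 _ from (h1 p).1).comp hY))
    (fun p => (hc _).1 (h1 p).2) hR.le fun p z hz => by
      rw [comp_apply (f := spl j ∘ χ), comp_apply (f := φ p), h2 p _ fun e => ?_, i2]
      exact hz.not_ge (by simpa using h3 ⟨_, e, i2 z⟩)
  have e : ∀ g : ℂ × ({k // k ≠ j} → ℂ) → _, (spl j ∘ χ) ∘ (Y ∘ g ∘ spl j ∘ χ) ∘ Y = g :=
    fun g => funext fun z => (i2 _).trans (congrArg g (i2 z))
  refine ⟨fun t p => Y ∘ Φ t p ∘ spl j ∘ χ, hY.1.comp (c1.comp (contDiff_fst.prodMk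
    (contDiff_snd.fst.prodMk (hX.1.comp contDiff_snd.snd)))), fun p => by simp only [c2]; exact i1.id,
    funext fun p => funext fun z => by simp only [c3]; exact (i1 _).trans (congrArg _ (i1 z)),
    fun t p => ⟨hY.comp ((c4 t p).1.comp hX), (hc _).2 (by rw [e]; exact (c4 t p).2)⟩,
    fun t p h => by simp only [c5 t p (by rw [h]; exact i2.id)]; exact i1.id,
    _, (isCompact_closedBall 0 R).image hY.1.continuous, fun t p z hz => ?_⟩
  exact (congrArg Y (c6 t p _ (not_le.1 fun h => hz ⟨_, by simpa using h, i1 z⟩))).trans (i1 z)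

end Pool.Agent.MP_630a92_gt

end
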